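import Pool.Agent.H99E.Org

set_option autoImplicit false

/-! Invariance of the loop partition functions; general starting edges. -/

namespace Pool.Agent.H99E

open H978R2.Hex Complex Pool.Agent.H99B Pool.Agent.H99C

open Classical in
/-- image of a set of edges -/
noncomputable def em (f : V → V) (C : Finset (Sym2 V)) : Finset (Sym2 V) := C.image (Sym2.map f)

theorem em_id (M : Mv) (C : Finset (Sym2 V)) : em M.g (em M.f C) = C := by
  classical
  unfold em
  rw [Finset.image_image, Sym2.map_comp.symm]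
  have : M.g ∘ M.f = id := funext M.gf
  rw [this, Sym2.map_id, Finset.image_id]

theorem em_card (M : Mv) (C : Finset (Sym2 V)) : (em M.f C).card = C.card := by
  classical
  unfold em
  exact Finset.card_image_of_injective _ (Sym2.map.injective M.inj)

theorem em_inj (M : Mv) : Function.Injective (em M.f) := by
  intro C C' h
  rw [← em_id M C, h, em_id]

theorem edges_map (M : Mv) : ∀ l : List V, edges (l.map M.f) = em M.f (edges l)
  | [] => by
    have e : edges ([] : List V) = ∅ := by
      unfold edges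
      simp
    rw [List.map_nil, e]
    unfold em
    simp
  | [a] => by
    classical
    unfold em
    have : edges [a] = ∅ := edges_one a
    rw [this]
    simp [edges_one]
  | a :: b :: t => by
    classical
    have ih := edges_map M (b :: t)
    rw [List.map_cons, List.map_cons, edges_cons, edges_cons, ← List.map_cons, ih]
    unfold em
    rw [Finset.image_insert, Sym2.map_mk]

theorem isLoop_em (M : Mv) {C : Finset (Sym2 V)} (h : IsLoop C) : IsLoop (em M.f C) := by
  obtain ⟨v, l, hc, rfl⟩ := h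
  refine ⟨M.f v, l.map M.f, M.circ_map hc, ?_⟩
  rw [← edges_map]
  simp

theorem mem_em {f : V → V} {C : Finset (Sym2 V)} {e : Sym2 V} :
    e ∈ em f C ↔ ∃ e' ∈ C, Sym2.map f e' = e := by
  classical
  unfold em
  rw [Finset.mem_image]

theorem loopsIn_em (M : Mv) {D : Finset V} {C : Finset (Sym2 V)} (h : C ∈ loopsIn D) :
    em M.f C ∈ loopsIn (D.image M.f) := by
  rw [mem_loopsIn] at h ⊢
  refine ⟨?_, isLoop_em M h.2⟩
  intro e he v hv
  rw [mem_em] at he
  obtain ⟨e', he', rfl⟩ := he
  rw [Sym2.mem_map] at hv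
  obtain ⟨u, hu, rfl⟩ := hv
  exact Finset.mem_image_of_mem _ (h.1 e' he' u hu)

open Classical in
theorem configs_em (M : Mv) {D : Finset V} {S : Finset (Finset (Sym2 V))} (h : S ∈ configs D) :
    S.image (em M.f) ∈ configs (D.image M.f) := by
  rw [mem_configs] at h ⊢
  refine ⟨?_, ?_⟩
  · intro C hC
    rw [Finset.mem_image] at hC
    obtain ⟨C', hC', rfl⟩ := hC
    exact loopsIn_em M (h.1 C' hC')
  · intro C hC C' hC' e he e' he' v hv hv'
    rw [Finset.mem_image] at hC hC'
    obtain ⟨C1, h1, rfl⟩ := hC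
    obtain ⟨C2, h2, rfl⟩ := hC'
    rw [mem_em] at he he'
    obtain ⟨e1, g1, rfl⟩ := he
    obtain ⟨e2, g2, rfl⟩ := he'
    rw [Sym2.mem_map] at hv hv'
    obtain ⟨u, hu, rfl⟩ := hv
    obtain ⟨u', hu', h3⟩ := hv'
    rw [M.inj h3] at hu'
    rw [h.2 C1 h1 C2 h2 e1 g1 e2 g2 u hu hu']

theorem image_symm (M : Mv) (D : Finset V) : (D.image M.f).image M.g = D := by
  rw [Finset.image_image]
  have : M.g ∘ M.f = id := funext M.gf
  rw [this, Finset.image_id]

/-- invariance -/
theorem Lam_image (M : Mv) (n x : ℝ) (D : Finset V) : Lam n x (D.image M.f) = Lam n x D := by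
  classical
  unfold Lam
  symm
  refine Finset.sum_nbij' (fun S => S.image (em M.f)) (fun S => S.image (em M.g)) ?_ ?_ ?_ ?_ ?_
  · intro S hS
    exact configs_em M hS
  · intro S hS
    have h1 := configs_em M.symm hS
    have e : (D.image M.f).image M.symm.f = D := image_symm M D
    rw [e] at h1
    exact h1
  · intro S _
    rw [Finset.image_image]
    have : em M.g ∘ em M.f = id := funext (em_id M)
    rw [this, Finset.image_id]
  · intro S _
    rw [Finset.image_image]
    have : em M.f ∘ em M.g = id := funext (em_id M.symm)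
    rw [this, Finset.image_id]
  · intro S _
    unfold wt
    rw [Finset.card_image_of_injective _ (em_inj M), Finset.sum_image fun C _ C' _ h => em_inj M h]
    rw [Finset.sum_congr rfl fun C _ => em_card M C]

theorem rest_image (M : Mv) (D : Finset V) (l : List V) :
    rest (D.image M.f) (l.map M.f) = (rest D l).image M.f := by
  ext u
  rw [mem_rest, Finset.mem_image, Finset.mem_image]
  constructor
  · rintro ⟨⟨y, hy, rfl⟩, h⟩
    exact ⟨y, mem_rest.2 ⟨hy, fun hm => h (List.mem_map_of_mem hm)⟩, rfl⟩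
  · rintro ⟨y, hy, rfl⟩
    rw [mem_rest] at hy
    refine ⟨⟨y, hy.1, rfl⟩, fun hm => hy.2 ?_⟩
    rw [List.mem_map] at hm
    obtain ⟨z, hz, h⟩ := hm
    rwa [M.inj h] at hz

theorem Lam_rest (M : Mv) (n x : ℝ) (D : Finset V) (l : List V) :
    Lam n x (rest (D.image M.f) l) = Lam n x (rest D (l.map M.g)) := by
  have h := Lam_image M n x (rest D (l.map M.g))
  rw [← rest_image, map_f_g] at h
  exact h

theorem cov_image (M : Mv) (n x : ℝ) (D : Finset V) (v : V) (l : List V) :
    cov n x (D.image M.f) (M.f v) l = cov n x D v (l.map M.g) := by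
  unfold cov
  have e1 : M.f v ∈ l ↔ v ∈ l.map M.g := (mem_map_g).symm
  have e2 : (rest (D.image M.f) l).erase (M.f v) = ((rest D (l.map M.g)).erase v).image M.f := by
    rw [Finset.image_erase M.inj, ← rest_image, map_f_g]
  by_cases h : v ∈ l.map M.g
  · rw [if_pos h, if_pos (e1.2 h), Lam_rest]
  · rw [if_neg h, if_neg (fun h' => h (e1.1 h')), Lam_rest, e2, Lam_image]

/-- transport of the sums -/
theorem sum_PEF (F : List V → ℝ) (D : Finset V) {b a : V} {M : Mv} (hb : M.f b = (0, 0))
    (ha : M.f a = (1, 0)) (p : List V → Prop) [DecidablePred p] :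
    ∑ l ∈ (PE D b a).filter p, F l =
      ∑ l ∈ (AA (D.image M.f)).filter (fun l => l.headD (0, 0) ≠ (0, 0) ∧ p (l.map M.g)),
        F (l.map M.g) := by
  refine Finset.sum_nbij' (List.map M.f) (List.map M.g) ?_ ?_ ?_ ?_ ?_
  · intro l hl
    rw [Finset.mem_filter, mem_PE] at hl
    obtain ⟨⟨z, t, rfl, h⟩, hp⟩ := hl
    obtain ⟨h1, h2, h3⟩ := h.good hb ha
    rw [Finset.mem_filter, mem_AA, map_g_f]
    exact ⟨⟨M.f z, t.map M.f, rfl, h1, h2⟩, by simpa using h3, hp⟩
  · intro l hl
    rw [Finset.mem_filter, mem_AA] at hl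
    obtain ⟨⟨z, t, rfl, h, hz⟩, hz0, hp⟩ := hl
    simp only [List.headD_cons] at hz0
    rw [Finset.mem_filter, mem_PE]
    exact ⟨⟨M.g z, t.map M.g, rfl, good_isP hb ha h hz hz0⟩, hp⟩
  · intro l _
    exact map_g_f M l
  · intro l _
    exact map_f_g M l
  · intro l _
    rw [map_g_f]

theorem Fc_map_g (c x : ℝ) (M : Mv) (l : List V) : Fc c x (l.map M.g) = Fc c x l := by
  rw [← Fc_map c x M (l.map M.g), map_f_g]

/-- **boundary start** -/
theorem T1 {c n x : ℝ} (h : Dil c n x) {D : Finset V}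
    (hN : NoHole D) {b a v : V} (hab : Adj b a) (hb : b ∉ D) (hv : v ∈ D) :
    ∑ l ∈ (PE (D.erase v) b a).filter (fun l => l.headD (0, 0) = v),
        Fc c x l * Lam n x (rest (D.erase v) l) + (Lam n x D - Lam n x (D.erase v)) ≤
      ∑ l ∈ PE D b a, Fc c x l * cov n x D v l := by
  obtain ⟨M, hb0, ha0⟩ := Mv.exists_mv hab
  have hb' : M.g (0, 0) = b := by rw [← hb0, M.gf]
  have hO : (0, 0) ∉ D.image M.f := by
    rw [mem_image_f, hb']
    exact hb
  have hv' : M.f v ∈ D.image M.f := Finset.mem_image_of_mem _ hv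
  have h1 := org1 h (hN.image M) hO hv'
  rw [← Finset.image_erase M.inj, Lam_image, Lam_image] at h1
  have hv0 : M.f v ≠ (0, 0) := by
    rintro h0
    rw [h0] at hv'
    exact hO hv'
  have h2 := sum_PEF (fun l => Fc c x l * Lam n x (rest (D.erase v) l)) (D.erase v) hb0 ha0
    (fun l => l.headD (0, 0) = v)
  have h3 := sum_PEF (fun l => Fc c x l * cov n x D v l) D hb0 ha0 (fun _ => True)
  rw [Finset.filter_true_of_mem (fun _ _ => trivial)] at h3
  rw [h2, h3]
  have e1 : (AA ((D.erase v).image M.f)).filter (fun l => l.headD (0, 0) = M.f v) =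
      (AA ((D.erase v).image M.f)).filter
        (fun l => l.headD (0, 0) ≠ (0, 0) ∧ (l.map M.g).headD (0, 0) = v) := by
    refine Finset.filter_congr fun l hl => ?_
    rw [mem_AA] at hl
    obtain ⟨z, t, rfl, -, -⟩ := hl
    simp only [List.headD_cons, List.map_cons]
    constructor
    · rintro rfl
      exact ⟨hv0, M.gf v⟩
    · rintro ⟨-, h2⟩
      rw [← h2, M.fg]
  have e2 : (AA (D.image M.f)).filter (fun l => l.headD (0, 0) ≠ (0, 0)) =
      (AA (D.image M.f)).filter (fun l => l.headD (0, 0) ≠ (0, 0) ∧ True) := by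
    refine Finset.filter_congr fun l _ => ?_
    rw [and_true]
  rw [← e1, ← e2]
  have e3 : ∀ l, Fc c x (l.map M.g) * Lam n x (rest (D.erase v) (l.map M.g)) =
      Fc c x l * Lam n x (rest ((D.erase v).image M.f) l) := by
    intro l
    rw [Fc_map_g, Lam_rest]
  have e4 : ∀ l, Fc c x (l.map M.g) * cov n x D v (l.map M.g) =
      Fc c x l * cov n x (D.image M.f) (M.f v) l := by
    intro l
    rw [Fc_map_g, cov_image]
  rw [Finset.sum_congr rfl fun l _ => e3 l, Finset.sum_congr rfl fun l _ => e4 l]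
  exact h1

/-- **bulk start** -/
theorem T2 {c n x : ℝ} (h : Dil c n x) {D : Finset V}
    (hN : NoHole D) {a v : V} (hab : Adj v a) :
    Lam n x (D.erase v) ≤
      ∑ l ∈ PE (D.erase v) v a, Fc c x l * Lam n x (rest (D.erase v) l) := by
  obtain ⟨M, hb0, ha0⟩ := Mv.exists_mv hab
  have h3 := sum_PEF (fun l => Fc c x l * Lam n x (rest (D.erase v) l)) (D.erase v) hb0 ha0
    (fun _ => True)
  rw [Finset.filter_true_of_mem (fun _ _ => trivial)] at h3
  rw [h3]
  have h1 := org2 h (hN.image M)
  have e0 : (D.image M.f).erase (0, 0) = (D.erase v).image M.f := by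
    rw [Finset.image_erase M.inj, hb0]
  rw [e0, Lam_image] at h1
  have e2 : (AA ((D.erase v).image M.f)).filter (fun l => l.headD (0, 0) ≠ (0, 0)) =
      (AA ((D.erase v).image M.f)).filter (fun l => l.headD (0, 0) ≠ (0, 0) ∧ True) := by
    refine Finset.filter_congr fun l _ => ?_
    rw [and_true]
  rw [← e2]
  have e3 : ∀ l, Fc c x (l.map M.g) * Lam n x (rest (D.erase v) (l.map M.g)) =
      Fc c x l * Lam n x (rest ((D.erase v).image M.f) l) := by
    intro l
    rw [Fc_map_g, Lam_rest]
  rw [Finset.sum_congr rfl fun l _ => e3 l]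
  exact h1

/-- **Theorem**: coverage of a vertex -/
theorem coverage {c n x : ℝ} (h : Dil c n x) {D : Finset V} (hN : NoHole D) {v : V} (hv : v ∈ D) :
    3 * Lam n x (D.erase v) + (bd D).card * (Lam n x D - Lam n x (D.erase v)) ≤
      ∑ p ∈ bd D, ∑ l ∈ PE D p.1 p.2, Fc c x l * cov n x D v l := by
  have h1 : ∑ l ∈ RR D v, Fc c x l * Lam n x (rest (D.erase v) l) +
      (bd D).card * (Lam n x D - Lam n x (D.erase v)) ≤
      ∑ p ∈ bd D, ∑ l ∈ PE D p.1 p.2, Fc c x l * cov n x D v l := by
    rw [sum_RR, ← nsmul_eq_mul, ← Finset.sum_const, ← Finset.sum_add_distrib]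
    refine Finset.sum_le_sum fun p hp => ?_
    obtain ⟨-, h2, h3⟩ := mem_bd.1 hp
    exact T1 h hN h3 h2 hv
  have h2 : 3 * Lam n x (D.erase v) ≤
      ∑ l ∈ QQ D v, Fc c x l * Lam n x (rest (D.erase v) l) := by
    rw [sum_QQ]
    have h3 : ∑ _a ∈ nbrs v, Lam n x (D.erase v) ≤
        ∑ a ∈ nbrs v, ∑ l ∈ PE (D.erase v) v a, Fc c x l * Lam n x (rest (D.erase v) l) :=
      Finset.sum_le_sum fun a ha => T2 h hN (mem_nbrs'.1 ha)
    rw [Finset.sum_const, card_nbrs, nsmul_eq_mul] at h3
    norm_num at h3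
    exact h3
  have h3 : ∑ l ∈ RR D v, Fc c x l * Lam n x (rest (D.erase v) l) =
      ∑ l ∈ QQ D v, Fc c x l * Lam n x (rest (D.erase v) l) := by
    have e0 : ∀ l : List V, rest (D.erase v) l.reverse = rest (D.erase v) l := by
      intro l
      ext u
      rw [mem_rest, mem_rest, List.mem_reverse]
    refine Finset.sum_nbij' List.reverse List.reverse ?_ ?_ ?_ ?_ ?_
    · intro l hl
      rw [mem_RR hv] at hl
      obtain ⟨w, b, rfl, h, hb⟩ := hl
      rw [mem_QQ]
      refine ⟨b, w.reverse, by simp, rev_mem h (fun hb' => hb (Finset.mem_of_mem_erase hb'))⟩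
    · intro l hl
      rw [mem_QQ] at hl
      obtain ⟨z, w, rfl, h⟩ := hl
      rw [mem_RR hv]
      refine ⟨w.reverse, z, by simp, rev_mem h (Finset.notMem_erase v D), ?_⟩
      intro hz
      apply h.out
      rw [Finset.mem_erase]
      refine ⟨?_, hz⟩
      rintro rfl
      have := (List.nodup_cons.1 h.nodup).1
      simp at this
    · intro l _
      exact List.reverse_reverse l
    · intro l _
      exact List.reverse_reverse l
    · intro l hl
      rw [mem_RR hv] at hl
      obtain ⟨w, b, rfl, h, hb⟩ := hl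
      rw [e0, Fc_reverse c x h.chain h.nodup]
  rw [h3] at h1
  linarith

end Pool.Agent.H99E
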