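import Pool.Agent.H99C.Bulk

set_option autoImplicit false

/-! Bulk start with loops: two inequalities for the paths which start at the origin. -/

namespace Pool.Agent.H99E

open H978R2.Hex Complex Pool.Agent.H99B Pool.Agent.H99C

/-- the dilute critical points with `0 ≤ n ≤ 1` -/
structure Dil (c n x : ℝ) : Prop where
  c1 : Real.pi / 8 ≤ c
  c2 : c ≤ Real.pi / 6
  hn : n = -(2 * Real.cos (4 * c))
  hx : x * (2 * Real.cos c) = 1

namespace Dil

variable {c n x : ℝ} (h : Dil c n x)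

include h

theorem n_nonneg : 0 ≤ n := by
  have h1 : Real.cos (4 * c) ≤ 0 := by
    refine Real.cos_nonpos_of_pi_div_two_le_of_le ?_ ?_ <;> linarith [h.c1, h.c2, Real.pi_pos]
  linarith [h.hn]

theorem n_le_one : n ≤ 1 := by
  have h1 : Real.cos (2 * Real.pi / 3) ≤ Real.cos (4 * c) := by
    refine Real.cos_le_cos_of_nonneg_of_le_pi ?_ ?_ ?_ <;> linarith [h.c1, h.c2, Real.pi_pos]
  have h2 : Real.cos (2 * Real.pi / 3) = -1 / 2 := by
    have e : 2 * Real.pi / 3 = Real.pi - Real.pi / 3 := by ring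
    rw [e, Real.cos_pi_sub, Real.cos_pi_div_three]
    norm_num
  rw [h2] at h1
  linarith [h.hn]

theorem cos_pos : 0 < Real.cos c := by
  refine Real.cos_pos_of_mem_Ioo ⟨?_, ?_⟩ <;> linarith [h.c1, h.c2, Real.pi_pos]

theorem x_pos : 0 < x := by
  have h1 := h.cos_pos
  have h2 := h.hx
  by_contra h3
  push Not at h3
  have : x * (2 * Real.cos c) ≤ 0 := mul_nonpos_of_nonpos_of_nonneg h3 (by linarith)
  linarith

theorem cos5 : Real.cos (5 * c) ≤ 0 := by
  refine Real.cos_nonpos_of_pi_div_two_le_of_le ?_ ?_ <;> linarith [h.c1, h.c2, Real.pi_pos]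

theorem cos7 : Real.cos (7 * c) ≤ 0 := by
  refine Real.cos_nonpos_of_pi_div_two_le_of_le ?_ ?_ <;> linarith [h.c1, h.c2, Real.pi_pos]

theorem cos8 : -(2 * Real.cos (8 * c)) = 2 - n ^ 2 := by
  have e : 8 * c = 2 * (4 * c) := by ring
  rw [e, Real.cos_two_mul, h.hn]
  ring

theorem n_le_lw (C : Finset (Sym2 V)) : n ≤ lw c C := by
  unfold lw
  split_ifs
  · rw [h.cos8]
    nlinarith [h.n_nonneg, h.n_le_one]
  · rw [h.hn]

theorem lw_nonneg (C : Finset (Sym2 V)) : 0 ≤ lw c C := h.n_nonneg.trans (h.n_le_lw C)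

theorem lw_eq {C : Finset (Sym2 V)} (hC : ¬ Sur C) : lw c C = n := by
  unfold lw
  rw [if_neg hC, h.hn]

/-- the closings have nonpositive weight -/
theorem closing {D : Finset V} {t : List V}
    (hg : Good (· ∈ D) (0, 0) t) : Fc c x ((0, 0) :: t) ≤ 0 := by
  unfold Fc
  refine mul_nonpos_of_nonneg_of_nonpos (pow_nonneg h.x_pos.le _) ?_
  rcases closing_W hg with h1 | h1 | h1 | h1 <;> rw [h1]
  · push_cast
    exact h.cos5
  · push_cast
    exact h.cos7
  · push_cast
    rw [neg_mul, Real.cos_neg]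
    exact h.cos5
  · push_cast
    rw [neg_mul, Real.cos_neg]
    exact h.cos7

end Dil

/-! ### partition functions -/

theorem Lam_eq (n x : ℝ) (D : Finset V) : Lam n x D = LamW (fun _ => n) x D := by
  unfold Lam LamW wt
  refine Finset.sum_congr rfl fun S _ => ?_
  rw [Finset.prod_const]

theorem LamW_le {f g : Finset (Sym2 V) → ℝ} {x : ℝ} (hf : ∀ C, 0 ≤ f C) (hfg : ∀ C, f C ≤ g C)
    (hx : 0 ≤ x) (D : Finset V) : LamW f x D ≤ LamW g x D := by
  unfold LamW
  refine Finset.sum_le_sum fun S _ => ?_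
  exact mul_le_mul_of_nonneg_right (Finset.prod_le_prod (fun C _ => hf C) fun C _ => hfg C)
    (pow_nonneg hx _)

theorem configs_mono {D E : Finset V} (h : D ⊆ E) : configs D ⊆ configs E := by
  intro S hS
  rw [mem_configs] at hS ⊢
  refine ⟨fun C hC => ?_, hS.2⟩
  have h1 := mem_loopsIn.1 (hS.1 C hC)
  exact mem_loopsIn.2 ⟨fun e he v hv => h (h1.1 e he v hv), h1.2⟩

theorem wt_nonneg {n x : ℝ} (hn : 0 ≤ n) (hx : 0 ≤ x) (S : Finset (Finset (Sym2 V))) :
    0 ≤ wt n x S := mul_nonneg (pow_nonneg hn _) (pow_nonneg hx _)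

theorem Lam_mono {n x : ℝ} (hn : 0 ≤ n) (hx : 0 ≤ x) {D E : Finset V} (h : D ⊆ E) :
    Lam n x D ≤ Lam n x E := by
  unfold Lam
  exact Finset.sum_le_sum_of_subset_of_nonneg (configs_mono h) fun S _ _ => wt_nonneg hn hx S

/-- no loop in a subset of a domain without holes surrounds an outer vertex -/
theorem LamW_lw {c n x : ℝ} (h : Dil c n x) {D E : Finset V} (hN : NoHole D) (hO : (0, 0) ∉ D)
    (hE : E ⊆ D) : LamW (lw c) x E = Lam n x E := by
  rw [Lam_eq]
  refine LamW_congr fun C hC => h.lw_eq (not_sur_of_noHole hN hO ?_)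
  obtain ⟨h1, h2⟩ := mem_loopsIn.1 hC
  exact mem_loopsIn.2 ⟨fun e he v hv => hE (h1 e he v hv), h2⟩

/-- the identity for a domain without holes -/
theorem sum_AA_Lam {c n x : ℝ} (h : Dil c n x) {D E : Finset V}
    (hN : NoHole D) (hO : (0, 0) ∉ D) (hE : E ⊆ D) :
    ∑ l ∈ AA E, Fc c x l * Lam n x (rest E l.tail) = Lam n x E := by
  have h1 := sum_AA c x h.hx (D := E) (fun h => hO (hE h))
  rw [LamW_lw h hN hO hE] at h1
  rw [← h1]
  refine Finset.sum_congr rfl fun l _ => ?_
  rw [LamW_lw h hN hO (rest_sub.trans hE)]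

open Classical in
/-- the partition function of the loops outside of `l` for which `v` is on `l` or on a loop -/
noncomputable def cov (n x : ℝ) (D : Finset V) (v : V) (t : List V) : ℝ :=
  if v ∈ t then Lam n x (rest D t) else Lam n x (rest D t) - Lam n x ((rest D t).erase v)

theorem cov_nonneg {n x : ℝ} (hn : 0 ≤ n) (hx : 0 ≤ x) (D : Finset V) (v : V) (t : List V) :
    0 ≤ cov n x D v t := by
  unfold cov
  split_ifs
  · exact zero_le_one.trans (Lam_pos hn hx _)
  · exact sub_nonneg.2 (Lam_mono hn hx (Finset.erase_subset _ _))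

theorem rest_erase (D : Finset V) (v : V) (t : List V) : rest (D.erase v) t = (rest D t).erase v := by
  ext u
  rw [mem_rest, Finset.mem_erase, Finset.mem_erase, mem_rest]
  tauto

/-- **boundary start** -/
theorem org1 {c n x : ℝ} (h : Dil c n x) {D : Finset V}
    (hN : NoHole D) (hO : (0, 0) ∉ D) {v : V} (hv : v ∈ D) :
    ∑ l ∈ (AA (D.erase v)).filter (fun l => l.headD (0, 0) = v),
        Fc c x l * Lam n x (rest (D.erase v) l) + (Lam n x D - Lam n x (D.erase v)) ≤
      ∑ l ∈ (AA D).filter (fun l => l.headD (0, 0) ≠ (0, 0)), Fc c x l * cov n x D v l := by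
  have h1 := sum_AA_Lam h hN hO (Finset.Subset.refl D)
  have h2 := sum_AA_Lam h hN hO (Finset.erase_subset v D)
  -- replace the tail by the list
  have r1 : ∀ (E : Finset V), ∀ l ∈ AA E, rest E l.tail = rest E l := by
    intro E l hl
    rw [mem_AA] at hl
    obtain ⟨z, t, rfl, hg, hz⟩ := hl
    ext u
    rw [mem_rest, mem_rest, List.tail_cons, List.mem_cons, not_or]
    constructor
    · rintro ⟨a1, a2⟩
      exact ⟨a1, fun h => hz (h ▸ a1), a2⟩
    · rintro ⟨a1, -, a2⟩
      exact ⟨a1, a2⟩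
  have h1' : ∑ l ∈ AA D, Fc c x l * Lam n x (rest D l) = Lam n x D := by
    rw [← h1]
    exact Finset.sum_congr rfl fun l hl => by rw [r1 D l hl]
  have h2' : ∑ l ∈ AA (D.erase v), Fc c x l * Lam n x (rest (D.erase v) l) =
      Lam n x (D.erase v) := by
    rw [← h2]
    exact Finset.sum_congr rfl fun l hl => by rw [r1 _ l hl]
  have h3 := AA_erase hO hv
  rw [← Finset.sum_filter_add_sum_filter_not (AA (D.erase v)) (fun l => l.headD (0, 0) = v)] at h2'
  have h4 : ∑ l ∈ (AA (D.erase v)).filter (fun l => ¬ l.headD (0, 0) = v),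
      Fc c x l * Lam n x (rest (D.erase v) l) = ∑ l ∈ (AA D).filter (fun l => ¬ v ∈ l),
      Fc c x l * Lam n x ((rest D l).erase v) := by
    have h5 : (AA (D.erase v)).filter (fun l => ¬ l.headD (0, 0) = v) =
        (AA D).filter (fun l => ¬ v ∈ l) := h3
    rw [h5]
    exact Finset.sum_congr rfl fun l _ => by rw [rest_erase]
  rw [h4] at h2'
  have h5 : ∑ l ∈ AA D, Fc c x l * cov n x D v l =
      Lam n x D - ∑ l ∈ (AA D).filter (fun l => ¬ v ∈ l),
        Fc c x l * Lam n x ((rest D l).erase v) := by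
    rw [← h1', ← Finset.sum_filter_add_sum_filter_not (AA D) (fun l => v ∈ l),
      ← Finset.sum_filter_add_sum_filter_not (AA D) (fun l => v ∈ l)
        (fun l => Fc c x l * Lam n x (rest D l))]
    have e1 : ∑ l ∈ (AA D).filter (fun l => v ∈ l), Fc c x l * cov n x D v l =
        ∑ l ∈ (AA D).filter (fun l => v ∈ l), Fc c x l * Lam n x (rest D l) := by
      refine Finset.sum_congr rfl fun l hl => ?_
      unfold cov
      rw [if_pos (Finset.mem_filter.1 hl).2]
    have e2 : ∑ l ∈ (AA D).filter (fun l => ¬ v ∈ l), Fc c x l * cov n x D v l =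
        ∑ l ∈ (AA D).filter (fun l => ¬ v ∈ l), Fc c x l * Lam n x (rest D l) -
        ∑ l ∈ (AA D).filter (fun l => ¬ v ∈ l), Fc c x l * Lam n x ((rest D l).erase v) := by
      rw [← Finset.sum_sub_distrib]
      refine Finset.sum_congr rfl fun l hl => ?_
      unfold cov
      rw [if_neg (Finset.mem_filter.1 hl).2]
      ring
    rw [e1, e2]
    ring
  rw [← Finset.sum_filter_add_sum_filter_not (AA D) (fun l => l.headD (0, 0) = (0, 0))] at h5
  have h6 : ∑ l ∈ (AA D).filter (fun l => l.headD (0, 0) = (0, 0)),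
      Fc c x l * cov n x D v l ≤ 0 := by
    refine Finset.sum_nonpos fun l hl => ?_
    rw [Finset.mem_filter, mem_AA] at hl
    obtain ⟨⟨z, t, rfl, hg, -⟩, hz⟩ := hl
    simp only [List.headD_cons] at hz
    subst hz
    exact mul_nonpos_of_nonpos_of_nonneg (h.closing hg)
      (cov_nonneg h.n_nonneg h.x_pos.le _ _ _)
  have h7 : ∑ l ∈ (AA D).filter (fun l => ¬ l.headD (0, 0) = (0, 0)),
      Fc c x l * cov n x D v l = ∑ l ∈ (AA D).filter (fun l => l.headD (0, 0) ≠ (0, 0)),
      Fc c x l * cov n x D v l := rfl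
  rw [h7] at h5
  linarith

/-- **bulk start** -/
theorem org2 {c n x : ℝ} (h : Dil c n x) {D : Finset V} (hN : NoHole D) :
    Lam n x (D.erase (0, 0)) ≤
      ∑ l ∈ (AA (D.erase (0, 0))).filter (fun l => l.headD (0, 0) ≠ (0, 0)),
      Fc c x l * Lam n x (rest (D.erase (0, 0)) l) := by
  have h0 := sum_AA c x h.hx (Finset.notMem_erase (0, 0) D)
  have hx0 := h.x_pos.le
  have h1 : Lam n x (D.erase (0, 0)) ≤ LamW (lw c) x (D.erase (0, 0)) := by
    rw [Lam_eq]
    exact LamW_le (fun _ => h.n_nonneg) h.n_le_lw hx0 _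
  rw [← Finset.sum_filter_add_sum_filter_not (AA (D.erase (0, 0)))
    (fun l => l.headD (0, 0) = (0, 0))] at h0
  have h2 : ∑ l ∈ (AA (D.erase (0, 0))).filter (fun l => l.headD (0, 0) = (0, 0)),
      Fc c x l * LamW (lw c) x (rest (D.erase (0, 0)) l.tail) ≤ 0 := by
    refine Finset.sum_nonpos fun l hl => ?_
    rw [Finset.mem_filter, mem_AA] at hl
    obtain ⟨⟨z, t, rfl, hg, -⟩, hz⟩ := hl
    simp only [List.headD_cons] at hz
    subst hz
    refine mul_nonpos_of_nonpos_of_nonneg (h.closing hg) ?_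
    exact zero_le_one.trans (LamW_one_le (f := lw c) h.lw_nonneg hx0 _)
  have h3 : ∑ l ∈ (AA (D.erase (0, 0))).filter (fun l => ¬ l.headD (0, 0) = (0, 0)),
      Fc c x l * LamW (lw c) x (rest (D.erase (0, 0)) l.tail) =
      ∑ l ∈ (AA (D.erase (0, 0))).filter (fun l => l.headD (0, 0) ≠ (0, 0)),
        Fc c x l * Lam n x (rest (D.erase (0, 0)) l) := by
    refine Finset.sum_congr rfl fun l hl => ?_
    rw [Finset.mem_filter, mem_AA] at hl
    obtain ⟨⟨z, t, rfl, hg, hzE⟩, hz⟩ := hl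
    simp only [List.headD_cons] at hz
    have hzD : z ∉ D := fun h => hzE (Finset.mem_erase.2 ⟨hz, h⟩)
    have e : rest (D.erase (0, 0)) (z :: t) = rest (D.erase (0, 0)) t := by
      ext u
      rw [mem_rest, mem_rest, List.mem_cons, not_or]
      constructor
      · rintro ⟨a1, -, a2⟩
        exact ⟨a1, a2⟩
      · rintro ⟨a1, a2⟩
        exact ⟨a1, fun h => hzE (h ▸ a1), a2⟩
    rw [List.tail_cons, e, Lam_eq]
    congr 1
    refine LamW_congr fun C hC => h.lw_eq ?_
    rintro ⟨v, k, hk, rfl, h0⟩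
    have hv := verts_of_loopsIn hC
    apply h0
    have hp := cw_path hk t z hg.chain (by
      intro y hy hm
      have h4 := mem_rest.1 (hv y hm)
      rcases List.mem_cons.1 hy with rfl | hy
      · exact hzE h4.1
      · exact h4.2 hy)
    have h5 : (z :: t).getLast (by simp) = (0, 0) := by
      have := hg.last2
      rw [List.getLast?_eq_some_getLast (by simp)] at this
      simpa using this
    rw [h5] at hp
    rw [← hp]
    exact hN v k hk (fun y hy => Finset.mem_of_mem_erase (mem_rest.1 (hv y hy)).1) z hzD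
  rw [h3] at h0
  linarith

end Pool.Agent.H99E
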