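import Pool.Agent.H99E.Inv
import Pool.Agent.H99C.Fin

set_option autoImplicit false

/-! Total mass, and the covering configurations. -/

namespace Pool.Agent.H99E

open H978R2.Hex Complex Pool.Agent.H99B Pool.Agent.H99C

theorem rest_cons {D : Finset V} {z : V} {t : List V} (hz : z ∉ D) : rest D (z :: t) = rest D t := by
  ext u
  rw [mem_rest, mem_rest, List.mem_cons, not_or]
  constructor
  · rintro ⟨a1, -, a2⟩
    exact ⟨a1, a2⟩
  · rintro ⟨a1, a2⟩
    exact ⟨a1, fun h => hz (h ▸ a1), a2⟩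

/-- the total mass, starting edge at the origin -/
theorem org0 {c n x : ℝ} (h : Dil c n x) {D : Finset V} (hN : NoHole D) (hO : (0, 0) ∉ D) :
    Lam n x D ≤ ∑ l ∈ (AA D).filter (fun l => l.headD (0, 0) ≠ (0, 0)),
        Fc c x l * Lam n x (rest D l) ∧
    ((∀ y ∈ D, Adj (0, 0) y → y = (1, 0)) →
      ∑ l ∈ (AA D).filter (fun l => l.headD (0, 0) ≠ (0, 0)), Fc c x l * Lam n x (rest D l) =
        Lam n x D) := by
  have h1 := sum_AA_Lam h hN hO (Finset.Subset.refl D)
  have h1' : ∑ l ∈ AA D, Fc c x l * Lam n x (rest D l) = Lam n x D := by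
    rw [← h1]
    refine Finset.sum_congr rfl fun l hl => ?_
    rw [mem_AA] at hl
    obtain ⟨z, t, rfl, hg, hz⟩ := hl
    rw [List.tail_cons, rest_cons hz]
  rw [← Finset.sum_filter_add_sum_filter_not (AA D) (fun l => l.headD (0, 0) = (0, 0))] at h1'
  have h7 : ∑ l ∈ (AA D).filter (fun l => ¬ l.headD (0, 0) = (0, 0)),
      Fc c x l * Lam n x (rest D l) = ∑ l ∈ (AA D).filter (fun l => l.headD (0, 0) ≠ (0, 0)),
      Fc c x l * Lam n x (rest D l) := rfl
  rw [h7] at h1'
  refine ⟨?_, ?_⟩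
  · have h6 : ∑ l ∈ (AA D).filter (fun l => l.headD (0, 0) = (0, 0)),
        Fc c x l * Lam n x (rest D l) ≤ 0 := by
      refine Finset.sum_nonpos fun l hl => ?_
      rw [Finset.mem_filter, mem_AA] at hl
      obtain ⟨⟨z, t, rfl, hg, -⟩, hz⟩ := hl
      simp only [List.headD_cons] at hz
      subst hz
      exact mul_nonpos_of_nonpos_of_nonneg (h.closing hg)
        (zero_le_one.trans (Lam_pos h.n_nonneg h.x_pos.le _))
    linarith
  · intro hu
    have h6 : (AA D).filter (fun l => l.headD (0, 0) = (0, 0)) = ∅ := by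
      rw [Finset.filter_eq_empty_iff]
      intro l hl hz
      rw [mem_AA] at hl
      obtain ⟨z, t, rfl, hg, -⟩ := hl
      simp only [List.headD_cons] at hz
      subst hz
      obtain ⟨s, hs⟩ := hg.suff
      match s, hs with
      | [], hs => simp at hs
      | [_], hs =>
        simp only [List.cons_append, List.nil_append, List.cons.injEq] at hs
        obtain ⟨-, rfl⟩ := hs
        exact absurd rfl (hg.nb (1, 0) (0, 0) [] rfl)
      | u :: y :: t', hs =>
        simp only [List.cons_append, List.cons.injEq] at hs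
        obtain ⟨rfl, rfl⟩ := hs
        have hc := hg.chain
        rw [List.isChain_cons_cons] at hc
        have hy : y ∈ D := by
          apply hg.om
          have e : y :: (t' ++ [((1, 0) : V), (0, 0)]) = (y :: (t' ++ [(1, 0)])) ++ [(0, 0)] := by
            simp
          rw [e, List.dropLast_concat]
          simp
        have h2 := hu y hy (adj_symm' hc.1)
        have hn := hg.nodup
        rw [List.nodup_cons] at hn
        apply hn.1
        rw [h2]
        simp
    rw [h6, Finset.sum_empty, zero_add] at h1'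
    exact h1'

/-- **total mass** -/
theorem T0 {c n x : ℝ} (h : Dil c n x) {D : Finset V}
    (hN : NoHole D) {b a : V} (hab : Adj b a) (hb : b ∉ D) :
    Lam n x D ≤ ∑ l ∈ PE D b a, Fc c x l * Lam n x (rest D l) ∧
    ((∀ y ∈ D, Adj b y → y = a) →
      ∑ l ∈ PE D b a, Fc c x l * Lam n x (rest D l) = Lam n x D) := by
  obtain ⟨M, hb0, ha0⟩ := Mv.exists_mv hab
  have hb' : M.g (0, 0) = b := by rw [← hb0, M.gf]
  have hO : (0, 0) ∉ D.image M.f := by
    rw [mem_image_f, hb']
    exact hb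
  have h1 := org0 h (hN.image M) hO
  rw [Lam_image] at h1
  have h3 := sum_PEF (fun l => Fc c x l * Lam n x (rest D l)) D hb0 ha0 (fun _ => True)
  rw [Finset.filter_true_of_mem (fun _ _ => trivial)] at h3
  rw [h3]
  have e2 : (AA (D.image M.f)).filter (fun l => l.headD (0, 0) ≠ (0, 0)) =
      (AA (D.image M.f)).filter (fun l => l.headD (0, 0) ≠ (0, 0) ∧ True) := by
    refine Finset.filter_congr fun l _ => ?_
    rw [and_true]
  rw [← e2]
  have e3 : ∀ l, Fc c x (l.map M.g) * Lam n x (rest D (l.map M.g)) =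
      Fc c x l * Lam n x (rest (D.image M.f) l) := by
    intro l
    rw [Fc_map_g, Lam_rest]
  rw [Finset.sum_congr rfl fun l _ => e3 l]
  refine ⟨h1.1, fun hu => h1.2 ?_⟩
  intro y hy hady
  rw [mem_image_f] at hy
  have h4 : Adj b (M.g y) := by
    rw [← M.adj, hb0, M.fg]
    exact hady
  rw [← ha0, ← hu _ hy h4, M.fg]

/-- no loop through `v` -/
theorem mem_configs_erase {D : Finset V} {v : V} {S : Finset (Finset (Sym2 V))} :
    S ∈ configs (D.erase v) ↔ S ∈ configs D ∧ ¬ ∃ C ∈ S, ∃ e ∈ C, v ∈ e := by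
  rw [mem_configs, mem_configs]
  constructor
  · rintro ⟨h1, h2⟩
    refine ⟨⟨fun C hC => ?_, h2⟩, ?_⟩
    · have h3 := mem_loopsIn.1 (h1 C hC)
      exact mem_loopsIn.2 ⟨fun e he u hu => Finset.mem_of_mem_erase (h3.1 e he u hu), h3.2⟩
    · rintro ⟨C, hC, e, he, hv⟩
      have h3 := mem_loopsIn.1 (h1 C hC)
      exact Finset.notMem_erase v D (h3.1 e he v hv)
  · rintro ⟨⟨h1, h2⟩, h3⟩
    refine ⟨fun C hC => ?_, h2⟩
    have h4 := mem_loopsIn.1 (h1 C hC)
    refine mem_loopsIn.2 ⟨fun e he u hu => ?_, h4.2⟩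
    rw [Finset.mem_erase]
    exact ⟨fun huv => h3 ⟨C, hC, e, he, huv ▸ hu⟩, h4.1 e he u hu⟩

open Classical in
/-- the configurations which cover `v` -/
theorem sum_cov (n x : ℝ) (D : Finset V) (v : V) (t : List V) :
    ∑ S ∈ (configs (rest D t)).filter (fun S => v ∈ t ∨ ∃ C ∈ S, ∃ e ∈ C, v ∈ e), wt n x S =
      cov n x D v t := by
  unfold cov
  by_cases h : v ∈ t
  · rw [if_pos h]
    unfold Lam
    rw [Finset.filter_true_of_mem (fun S _ => Or.inl h)]
  · rw [if_neg h]
    unfold Lam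
    rw [← Finset.sum_filter_add_sum_filter_not (configs (rest D t))
      (fun S => v ∈ t ∨ ∃ C ∈ S, ∃ e ∈ C, v ∈ e)]
    have e1 : (configs (rest D t)).filter (fun S => ¬ (v ∈ t ∨ ∃ C ∈ S, ∃ e ∈ C, v ∈ e)) =
        configs ((rest D t).erase v) := by
      ext S
      rw [Finset.mem_filter, mem_configs_erase, not_or]
      tauto
    rw [e1]
    ring

theorem rest_nil (D : Finset V) : rest D [] = D := by
  ext u
  rw [mem_rest]
  simp

theorem cov_nil {n x : ℝ} {D : Finset V} {v : V} :
    cov n x D v [] = Lam n x D - Lam n x (D.erase v) := by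
  unfold cov
  rw [if_neg (by simp), rest_nil]

/-- **coverage** in terms of all crossings -/
theorem coverage' {c n x : ℝ} (h : Dil c n x) {D : Finset V} (hN : NoHole D) {v : V} (hv : v ∈ D) :
    3 * (Lam n x D - cov n x D v []) + (bd D).card * cov n x D v [] ≤
      ∑ l ∈ CC D, Fc c x l * cov n x D v l := by
  have h1 := coverage h hN hv
  have h2 := sum_CC D (fun _ => True) (fun l => Fc c x l * cov n x D v l)
  simp only [Finset.filter_true] at h2
  rw [h2, cov_nil]
  linarith

/-- the crossings with a given last edge -/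
theorem mem_PE_iff {D : Finset V} {b a : V} (hb : b ∉ D) (ha : a ∈ D) {l : List V} :
    l ∈ PE D b a ↔ l ∈ CC D ∧ [a, b] <:+ l := by
  rw [mem_PE', mem_CC]
  constructor
  · rintro ⟨z, w, rfl, h, hs⟩
    refine ⟨⟨z, w, b, rfl, h, hb, ?_⟩, hs⟩
    rintro rfl
    have h1 : [a, b] <:+ [z, b] := by simpa using hs
    have h2 := (suff_unique h1 (List.suffix_refl _)).1
    rw [h2] at ha
    exact h.out ha
  · rintro ⟨⟨z, w, b', rfl, h, hb', hw⟩, hs⟩
    obtain ⟨a', h1, -⟩ := h.last
    obtain ⟨rfl, rfl⟩ := suff_unique hs h1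
    exact ⟨z, w, rfl, h, hs⟩

end Pool.Agent.H99E
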